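import Mathlib

/-! Project AG (captain helper32), packet TWA, part 1: quotients by the annihilator of an idempotent. -/

set_option autoImplicit false

namespace Pool.Agent.Helper12.AG

section Abs

variable {R : Type*} [CommRing R]

/-- the annihilator of `e` -/
def Ann (e : R) : Ideal R where
  carrier := {x | x * e = 0}
  add_mem' := by
    intro a b ha hb
    simp only [Set.mem_ofPred_eq] at *
    rw [add_mul, ha, hb, add_zero]
  zero_mem' := by simp
  smul_mem' := by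
    intro c x hx
    simp only [Set.mem_ofPred_eq, smul_eq_mul] at *
    rw [mul_assoc, hx, mul_zero]

theorem mem_Ann {e x : R} : x ∈ Ann e ↔ x * e = 0 := Iff.rfl

theorem ann_max {e : R} (hne : e ≠ 0) (hf : ∀ x, x * e ≠ 0 → ∃ y, x * y * e = e) :
    (Ann e).IsMaximal := by
  rw [Ideal.isMaximal_iff]
  refine ⟨?_, ?_⟩
  · rw [mem_Ann, one_mul]; exact hne
  · intro J x hJ hx hxJ
    obtain ⟨y, hy⟩ := hf x hx
    have h1 : (1 - x * y) ∈ J := hJ (by rw [mem_Ann, sub_mul, one_mul, hy, sub_self])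
    have h2 : x * y ∈ J := J.mul_mem_right _ hxJ
    have := J.add_mem h1 h2
    rwa [sub_add_cancel] at this

variable {F : Type*} [Field F] [Algebra F R]

/-- the induced map -/
def qmap {e : R} (f : R ≃ₐ[F] R) (h : f e = e) : (R ⧸ Ann e) →ₐ[F] (R ⧸ Ann e) :=
  Ideal.quotientMapₐ (Ann e) (f : R →ₐ[F] R) (by
    intro x hx
    show f x * e = 0
    rw [mem_Ann] at hx
    have h1 : f (x * e) = 0 := by rw [hx, map_zero]
    rwa [map_mul, h] at h1)

theorem qmap_mk {e : R} (f : R ≃ₐ[F] R) (h : f e = e) (x : R) :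
    qmap f h (Ideal.Quotient.mk (Ann e) x) = Ideal.Quotient.mk (Ann e) (f x) := rfl

/-- the induced homomorphism -/
def qhom {Γ : Type*} [Group Γ] {e : R} (Θ : Γ →* (R ≃ₐ[F] R)) (h : ∀ γ, Θ γ e = e) :
    Γ →* ((R ⧸ Ann e) ≃ₐ[F] (R ⧸ Ann e)) where
  toFun γ := AlgEquiv.ofAlgHom (qmap (Θ γ) (h γ)) (qmap (Θ γ⁻¹) (h γ⁻¹))
    (by
      ext x
      obtain ⟨y, rfl⟩ := Ideal.Quotient.mk_surjective x
      show Ideal.Quotient.mk (Ann e) (Θ γ (Θ γ⁻¹ y)) = Ideal.Quotient.mk (Ann e) y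
      rw [← AlgEquiv.mul_apply, ← map_mul, mul_inv_cancel, map_one, AlgEquiv.one_apply])
    (by
      ext x
      obtain ⟨y, rfl⟩ := Ideal.Quotient.mk_surjective x
      show Ideal.Quotient.mk (Ann e) (Θ γ⁻¹ (Θ γ y)) = Ideal.Quotient.mk (Ann e) y
      rw [← AlgEquiv.mul_apply, ← map_mul, inv_mul_cancel, map_one, AlgEquiv.one_apply])
  map_one' := by
    ext x
    obtain ⟨y, rfl⟩ := Ideal.Quotient.mk_surjective x
    show Ideal.Quotient.mk (Ann e) (Θ 1 y) = Ideal.Quotient.mk (Ann e) y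
    rw [map_one, AlgEquiv.one_apply]
  map_mul' a b := by
    ext x
    obtain ⟨y, rfl⟩ := Ideal.Quotient.mk_surjective x
    show Ideal.Quotient.mk (Ann e) (Θ (a * b) y) = Ideal.Quotient.mk (Ann e) (Θ a (Θ b y))
    rw [map_mul, AlgEquiv.mul_apply]

theorem qhom_mk {Γ : Type*} [Group Γ] {e : R} (Θ : Γ →* (R ≃ₐ[F] R)) (h : ∀ γ, Θ γ e = e)
    (γ : Γ) (x : R) :
    qhom Θ h γ (Ideal.Quotient.mk (Ann e) x) = Ideal.Quotient.mk (Ann e) (Θ γ x) := rfl

/-- facts on the quotient field -/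
theorem quot_facts [Finite F] [Finite R] (I : Ideal R) [I.IsMaximal] :
    Nat.card ((R ⧸ I) ≃ₐ[F] (R ⧸ I)) = Module.finrank F (R ⧸ I) ∧
    (∀ f g : (R ⧸ I) ≃ₐ[F] (R ⧸ I), f * g = g * f) ∧
    0 < Module.finrank F (R ⧸ I) ∧
    Nat.card (R ⧸ I) = Nat.card F ^ Module.finrank F (R ⧸ I) ∧
    Nat.card (R ⧸ I)ˣ = Nat.card F ^ Module.finrank F (R ⧸ I) - 1 := by
  let _ : Field (R ⧸ I) := Ideal.Quotient.field I
  have : Finite (R ⧸ I) := Finite.of_surjective _ (Ideal.Quotient.mk_surjective (I := I))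
  have : Module.Finite F (R ⧸ I) := Module.Finite.of_finite
  have hcard : Nat.card (R ⧸ I) = Nat.card F ^ Module.finrank F (R ⧸ I) :=
    Module.natCard_eq_pow_finrank
  refine ⟨?_, ?_, Module.finrank_pos, hcard, ?_⟩
  · exact IsGalois.card_aut_eq_finrank F (R ⧸ I)
  · intro f g
    have : IsCyclic ((R ⧸ I) ≃ₐ[F] (R ⧸ I)) := inferInstance
    exact (IsCyclic.isMulCommutative (α := ((R ⧸ I) ≃ₐ[F] (R ⧸ I)))).is_comm.comm f g
  · rw [Nat.card_units, hcard]

theorem finrank_eq [Finite F] [Finite R] {e0 e1 : R} (τ : R ≃ₐ[F] R) (hτ : τ e0 = e1) :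
    Module.finrank F (R ⧸ Ann e1) = Module.finrank F (R ⧸ Ann e0) := by
  have h : Ann e1 = (Ann e0).map (τ : R →+* R) := by
    have h1 : (Ann e0).map (τ : R →+* R) = (Ann e0).comap ((τ : R ≃+* R).symm : R →+* R) := by
      have := Ideal.map_comap_of_equiv (I := Ann e0) (τ : R ≃+* R)
      exact this
    rw [h1]
    ext x
    rw [Ideal.mem_comap, mem_Ann, mem_Ann]
    show x * e1 = 0 ↔ τ.symm x * e0 = 0
    rw [← hτ]
    constructor
    · intro h
      have := congrArg τ.symm h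
      rwa [map_mul, AlgEquiv.symm_apply_apply, map_zero] at this
    · intro h
      have := congrArg τ h
      rwa [map_mul, AlgEquiv.apply_symm_apply, map_zero] at this
  exact (Ideal.quotientEquivAlg (Ann e0) (Ann e1) τ h).toLinearEquiv.finrank_eq.symm

theorem card_units_dvd [Finite F] [Finite R] {e0 e1 : R} [(Ann e0).IsMaximal] [(Ann e1).IsMaximal]
    (hsum : e0 + e1 = 1) (hfr : Module.finrank F (R ⧸ Ann e1) = Module.finrank F (R ⧸ Ann e0))
    {B : Type*} [Group B] [Finite B] (ψ : B →* R) (hψ : Function.Injective ψ) :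
    Nat.card B ∣ (Nat.card F ^ Module.finrank F (R ⧸ Ann e0) - 1) ^ 2 := by
  let χ : B →* (R ⧸ Ann e0) × (R ⧸ Ann e1) :=
    ((Ideal.Quotient.mk (Ann e0)).toMonoidHom.comp ψ).prod
      ((Ideal.Quotient.mk (Ann e1)).toMonoidHom.comp ψ)
  have hχ : Function.Injective χ := by
    intro a b hab
    apply hψ
    have h1 : Ideal.Quotient.mk (Ann e0) (ψ a) = Ideal.Quotient.mk (Ann e0) (ψ b) :=
      congrArg Prod.fst hab
    have h2 : Ideal.Quotient.mk (Ann e1) (ψ a) = Ideal.Quotient.mk (Ann e1) (ψ b) :=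
      congrArg Prod.snd hab
    rw [Ideal.Quotient.eq, mem_Ann] at h1 h2
    have h3 : (ψ a - ψ b) * (e0 + e1) = 0 := by rw [mul_add, h1, h2, add_zero]
    rw [hsum, mul_one, sub_eq_zero] at h3
    exact h3
  let χ' : B →* ((R ⧸ Ann e0) × (R ⧸ Ann e1))ˣ := χ.toHomUnits
  have hχ' : Function.Injective χ' := by
    intro a b hab
    exact hχ (congrArg Units.val hab)
  have : Finite (R ⧸ Ann e0) := Finite.of_surjective _ (Ideal.Quotient.mk_surjective)
  have : Finite (R ⧸ Ann e1) := Finite.of_surjective _ (Ideal.Quotient.mk_surjective)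
  have h1 := Subgroup.card_dvd_of_injective χ' hχ'
  rw [Nat.card_congr (MulEquiv.prodUnits (M := R ⧸ Ann e0) (N := R ⧸ Ann e1)).toEquiv,
    Nat.card_prod, (quot_facts (F := F) (Ann e0)).2.2.2.2, (quot_facts (F := F) (Ann e1)).2.2.2.2,
    hfr, ← sq] at h1
  exact h1

theorem absMain [Finite F] [Finite R] {e0 e1 : R} [(Ann e0).IsMaximal] [(Ann e1).IsMaximal]
    (hsum : e0 + e1 = 1) (hfr : Module.finrank F (R ⧸ Ann e1) = Module.finrank F (R ⧸ Ann e0))
    {M : Type*} [Group M] [Finite M] (Θ : M →* (R ≃ₐ[F] R)) (h0 : ∀ m, Θ m e0 = e0) :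
    ∃ f : ℕ, 0 < f ∧ f ∣ Module.finrank F (R ⧸ Ann e0) ^ 2 ∧
      Nat.card M = f * Nat.card Θ.ker ∧ (∀ x y : M, x * y * x⁻¹ * y⁻¹ ∈ Θ.ker) ∧
      (2 ≤ Module.finrank F (R ⧸ Ann e0) → f = Module.finrank F (R ⧸ Ann e0) ^ 2 →
        ∃ m : M, (∀ x, (Θ m x - x) * e1 = 0) ∧ ∃ x, (Θ m x - x) * e0 ≠ 0) := by
  have h1 : ∀ m, Θ m e1 = e1 := by
    intro m
    have h2 : e1 = 1 - e0 := by rw [← hsum, add_sub_cancel_left]
    rw [h2, map_sub, map_one, h0]
  obtain ⟨a1, a2, a3, a4, -⟩ := quot_facts (F := F) (Ann e0)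
  obtain ⟨b1, b2, b3, b4, -⟩ := quot_facts (F := F) (Ann e1)
  have : Finite (R ⧸ Ann e0) := Finite.of_surjective _ (Ideal.Quotient.mk_surjective)
  have : Finite (R ⧸ Ann e1) := Finite.of_surjective _ (Ideal.Quotient.mk_surjective)
  have : Finite ((R ⧸ Ann e0) ≃ₐ[F] (R ⧸ Ann e0)) := Nat.finite_of_card_ne_zero (by rw [a1]; omega)
  have : Finite ((R ⧸ Ann e1) ≃ₐ[F] (R ⧸ Ann e1)) := Nat.finite_of_card_ne_zero (by rw [b1]; omega)
  let φ := (qhom Θ h0).prod (qhom Θ h1)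
  have hφ : ∀ m, φ m = 1 ↔ Θ m = 1 := by
    intro m
    constructor
    · intro hm
      ext x
      have e1' := congrArg Prod.fst hm
      have e2' := congrArg Prod.snd hm
      have e3 : Ideal.Quotient.mk (Ann e0) (Θ m x) = Ideal.Quotient.mk (Ann e0) x :=
        AlgEquiv.congr_fun e1' (Ideal.Quotient.mk (Ann e0) x)
      have e4 : Ideal.Quotient.mk (Ann e1) (Θ m x) = Ideal.Quotient.mk (Ann e1) x :=
        AlgEquiv.congr_fun e2' (Ideal.Quotient.mk (Ann e1) x)
      rw [Ideal.Quotient.eq, mem_Ann] at e3 e4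
      have h3 : (Θ m x - x) * (e0 + e1) = 0 := by rw [mul_add, e3, e4, add_zero]
      rw [hsum, mul_one, sub_eq_zero] at h3
      exact h3
    · intro hm
      apply Prod.ext
      · ext x
        obtain ⟨y, rfl⟩ := Ideal.Quotient.mk_surjective x
        show Ideal.Quotient.mk (Ann e0) (Θ m y) = Ideal.Quotient.mk (Ann e0) y
        rw [hm, AlgEquiv.one_apply]
      · ext x
        obtain ⟨y, rfl⟩ := Ideal.Quotient.mk_surjective x
        show Ideal.Quotient.mk (Ann e1) (Θ m y) = Ideal.Quotient.mk (Ann e1) y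
        rw [hm, AlgEquiv.one_apply]
  have hker : φ.ker = Θ.ker := by
    ext m
    rw [MonoidHom.mem_ker, MonoidHom.mem_ker]
    exact hφ m
  have hcod : Nat.card (((R ⧸ Ann e0) ≃ₐ[F] (R ⧸ Ann e0)) × ((R ⧸ Ann e1) ≃ₐ[F] (R ⧸ Ann e1))) =
      Module.finrank F (R ⧸ Ann e0) ^ 2 := by
    rw [Nat.card_prod, a1, b1, hfr, sq]
  refine ⟨Nat.card φ.range, Nat.card_pos, ?_, ?_, ?_, ?_⟩
  · rw [← hcod]
    exact Subgroup.card_subgroup_dvd_card _
  · have h2 := Subgroup.card_mul_index φ.ker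
    rw [Subgroup.index_ker, hker] at h2
    rw [← h2, mul_comm]
  · intro x y
    rw [← hker, MonoidHom.mem_ker]
    have h2 : φ x * φ y = φ y * φ x := Prod.ext (a2 _ _) (b2 _ _)
    rw [map_mul, map_mul, map_mul, map_inv, map_inv, h2]
    group
  · intro ha hf
    have hsurj : φ.range = ⊤ := by
      apply Subgroup.eq_top_of_card_eq
      rw [hf, hcod]
    have hnt : Nontrivial ((R ⧸ Ann e0) ≃ₐ[F] (R ⧸ Ann e0)) := by
      rw [← Finite.one_lt_card_iff_nontrivial, a1]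
      omega
    obtain ⟨σ, hσ⟩ := exists_ne (1 : (R ⧸ Ann e0) ≃ₐ[F] (R ⧸ Ann e0))
    obtain ⟨m, hm⟩ : (σ, (1 : (R ⧸ Ann e1) ≃ₐ[F] (R ⧸ Ann e1))) ∈ φ.range := by
      rw [hsurj]; trivial
    refine ⟨m, ?_, ?_⟩
    · intro x
      have e2' := congrArg Prod.snd hm
      have e4 : Ideal.Quotient.mk (Ann e1) (Θ m x) = Ideal.Quotient.mk (Ann e1) x :=
        AlgEquiv.congr_fun e2' (Ideal.Quotient.mk (Ann e1) x)
      rwa [Ideal.Quotient.eq, mem_Ann] at e4
    · by_contra hcon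
      push Not at hcon
      apply hσ
      have e1' := congrArg Prod.fst hm
      have e1'' : qhom Θ h0 m = σ := e1'
      rw [← e1'']
      ext x
      obtain ⟨y, rfl⟩ := Ideal.Quotient.mk_surjective x
      show Ideal.Quotient.mk (Ann e0) (Θ m y) = Ideal.Quotient.mk (Ann e0) y
      rw [Ideal.Quotient.eq, mem_Ann]
      exact hcon y

theorem card_range_pow [Finite R] {U : Type*} [AddCommGroup U] [Module F U] [Finite U]
    (ι : R →ₐ[F] Module.End F U) {e : R} (hid : e * e = e) [(Ann e).IsMaximal] (hne : ι e ≠ 0) :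
    ∃ b : ℕ, 0 < b ∧ Nat.card (LinearMap.range (ι e)) = Nat.card (R ⧸ Ann e) ^ b := by
  let _ : Module R U := Module.compHom U (ι : R →+* Module.End F U)
  have hsm : ∀ (x : R) (u : U), x • u = ι x u := fun x u => rfl
  let W : Submodule R U :=
    { carrier := {u | e • u = u}
      add_mem' := by
        intro a b ha hb
        simp only [Set.mem_ofPred_eq] at *
        rw [smul_add, ha, hb]
      zero_mem' := by simp
      smul_mem' := by
        intro c x hx
        simp only [Set.mem_ofPred_eq] at *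
        rw [smul_smul, mul_comm, ← smul_smul, hx] }
  have hW : ∀ u : U, u ∈ W ↔ ι e u = u := fun u => Iff.rfl
  have htor : Module.IsTorsionBySet R W (Ann e : Set R) := by
    rintro w ⟨x, hx⟩
    apply Subtype.ext
    show x • (w : U) = 0
    have h1 : e • (w : U) = w := w.2
    have h2 : x * e = 0 := hx
    rw [← h1, smul_smul, h2, zero_smul]
  let _ : Field (R ⧸ Ann e) := Ideal.Quotient.field _
  let _ : Module (R ⧸ Ann e) W := htor.module
  have : Finite (R ⧸ Ann e) := Finite.of_surjective _ (Ideal.Quotient.mk_surjective)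
  have : Module.Finite (R ⧸ Ann e) W := Module.Finite.of_finite
  have hcW : Nat.card W = Nat.card (R ⧸ Ann e) ^ Module.finrank (R ⧸ Ann e) W :=
    Module.natCard_eq_pow_finrank
  have hcR : Nat.card (LinearMap.range (ι e)) = Nat.card W := by
    refine Nat.card_congr ?_
    refine
      { toFun := fun u => ⟨u.1, by
          obtain ⟨v, hv⟩ := u.2
          rw [hW, ← hv, ← Module.End.mul_apply, ← map_mul, hid]⟩
        invFun := fun u => ⟨u.1, ⟨u.1, (hW _).1 u.2⟩⟩
        left_inv := fun u => rfl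
        right_inv := fun u => rfl }
  refine ⟨Module.finrank (R ⧸ Ann e) W, ?_, by rw [hcR, hcW]⟩
  rw [Nat.pos_iff_ne_zero]
  intro h0
  rw [h0, pow_zero] at hcW
  have hsub : Subsingleton W := (Nat.card_eq_one_iff_unique.1 hcW).1
  apply hne
  ext u
  have h1 : ι e u ∈ W := by rw [hW, ← Module.End.mul_apply, ← map_mul, hid]
  have h2 : (⟨ι e u, h1⟩ : W) = 0 := Subsingleton.elim _ _
  exact congrArg Subtype.val h2

end Abs

end Pool.Agent.Helper12.AG
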