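import Pool.Agent.Helper32.AG.Goals
import Pool.Agent.Helper12.AG.TWAa

/-! Project AG (captain helper32), packet TWA: two blocks, structure. -/

set_option autoImplicit false

namespace Pool.Agent.Helper12.AG

open Pool.Agent.Helper32.AG

universe u

section Cj

variable {p : ℕ} [Fact p.Prime] {U : Type u} [AddCommGroup U] [Module (ZMod p) U]

theorem coe_mul' (g h : U ≃ₗ[ZMod p] U) :
    ((g * h : U ≃ₗ[ZMod p] U) : Module.End (ZMod p) U) =
      (g : Module.End (ZMod p) U) * (h : Module.End (ZMod p) U) := rfl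

theorem coe_mul_inv (h : U ≃ₗ[ZMod p] U) :
    (h : Module.End (ZMod p) U) * ((h⁻¹ : U ≃ₗ[ZMod p] U) : Module.End (ZMod p) U) = 1 := by
  rw [← coe_mul', mul_inv_cancel]; rfl

theorem coe_inv_mul (h : U ≃ₗ[ZMod p] U) :
    ((h⁻¹ : U ≃ₗ[ZMod p] U) : Module.End (ZMod p) U) * (h : Module.End (ZMod p) U) = 1 := by
  rw [← coe_mul', inv_mul_cancel]; rfl

theorem cj_cj (g h : U ≃ₗ[ZMod p] U) (x : Module.End (ZMod p) U) :
    cj g (cj h x) = cj (g * h) x := by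
  unfold cj
  rw [mul_inv_rev, coe_mul', coe_mul']
  simp only [mul_assoc]

theorem cj_one' (x : Module.End (ZMod p) U) : cj (1 : U ≃ₗ[ZMod p] U) x = x := by
  unfold cj
  rw [inv_one]
  show (1 : Module.End (ZMod p) U) * x * 1 = x
  rw [one_mul, mul_one]

theorem cj_mul (h : U ≃ₗ[ZMod p] U) (x y : Module.End (ZMod p) U) :
    cj h (x * y) = cj h x * cj h y := by
  unfold cj
  calc (h : Module.End (ZMod p) U) * (x * y) * ((h⁻¹ : U ≃ₗ[ZMod p] U) : Module.End (ZMod p) U)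
      = (h : Module.End (ZMod p) U) * x * (1 : Module.End (ZMod p) U) * y *
        ((h⁻¹ : U ≃ₗ[ZMod p] U) : Module.End (ZMod p) U) := by
        rw [mul_one]; simp only [mul_assoc]
    _ = _ := by rw [← coe_inv_mul h]; simp only [mul_assoc]

theorem cj_add (h : U ≃ₗ[ZMod p] U) (x y : Module.End (ZMod p) U) :
    cj h (x + y) = cj h x + cj h y := by
  unfold cj
  rw [mul_add, add_mul]

theorem cj_sub (h : U ≃ₗ[ZMod p] U) (x y : Module.End (ZMod p) U) :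
    cj h (x - y) = cj h x - cj h y := by
  unfold cj
  rw [mul_sub, sub_mul]

theorem cj_zero (h : U ≃ₗ[ZMod p] U) : cj h (0 : Module.End (ZMod p) U) = 0 := by
  unfold cj
  rw [mul_zero, zero_mul]

theorem cj_map_one (h : U ≃ₗ[ZMod p] U) : cj h (1 : Module.End (ZMod p) U) = 1 := by
  unfold cj
  rw [mul_one, coe_mul_inv]

theorem cj_coe (h a : U ≃ₗ[ZMod p] U) :
    cj h (a : Module.End (ZMod p) U) = ((h * a * h⁻¹ : U ≃ₗ[ZMod p] U) : Module.End (ZMod p) U) := by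
  unfold cj
  rw [coe_mul', coe_mul']

/-- conjugation as an algebra homomorphism -/
def cjA (h : U ≃ₗ[ZMod p] U) : Module.End (ZMod p) U →ₐ[ZMod p] Module.End (ZMod p) U where
  toFun := cj h
  map_one' := cj_map_one h
  map_mul' := cj_mul h
  map_zero' := cj_zero h
  map_add' := cj_add h
  commutes' := by
    intro c
    show cj h (algebraMap (ZMod p) (Module.End (ZMod p) U) c) = _
    unfold cj
    rw [← Algebra.commutes, mul_assoc, coe_mul_inv, mul_one]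

theorem cjA_apply (h : U ≃ₗ[ZMod p] U) (x : Module.End (ZMod p) U) : cjA h x = cj h x := rfl

theorem coe_mem {A : Subgroup (U ≃ₗ[ZMod p] U)} {a : U ≃ₗ[ZMod p] U} (ha : a ∈ A) :
    (a : Module.End (ZMod p) U) ∈ Rg A := Algebra.subset_adjoin ⟨a, ha, rfl⟩

theorem cj_mem {A : Subgroup (U ≃ₗ[ZMod p] U)} {h : U ≃ₗ[ZMod p] U}
    (hn : ∀ a ∈ A, h * a * h⁻¹ ∈ A) {x : Module.End (ZMod p) U} (hx : x ∈ Rg A) :
    cj h x ∈ Rg A := by
  have h1 : Rg A ≤ (Rg A).comap (cjA h) := by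
    refine Algebra.adjoin_le ?_
    rintro _ ⟨a, ha, rfl⟩
    show cj h (a : Module.End (ZMod p) U) ∈ Rg A
    rw [cj_coe]
    exact coe_mem (hn a ha)
  exact h1 hx

theorem rg_comm {A : Subgroup (U ≃ₗ[ZMod p] U)} (hc : ∀ a ∈ A, ∀ b ∈ A, a * b = b * a) :
    ∀ x ∈ ((fun a : U ≃ₗ[ZMod p] U => (a : Module.End (ZMod p) U)) '' (A : Set (U ≃ₗ[ZMod p] U))),
    ∀ y ∈ ((fun a : U ≃ₗ[ZMod p] U => (a : Module.End (ZMod p) U)) '' (A : Set (U ≃ₗ[ZMod p] U))),
      x * y = y * x := by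
  rintro _ ⟨a, ha, rfl⟩ _ ⟨b, hb, rfl⟩
  show (a : Module.End (ZMod p) U) * (b : Module.End (ZMod p) U) = _
  rw [← coe_mul', hc a ha b hb]
  rfl

/-- the action on `Rg A` -/
def Th {H A : Subgroup (U ≃ₗ[ZMod p] U)} (hn : ∀ h ∈ H, ∀ a ∈ A, h * a * h⁻¹ ∈ A) :
    H →* (Rg A ≃ₐ[ZMod p] Rg A) where
  toFun h := AlgEquiv.ofAlgHom
    (((cjA h.1).comp (Rg A).val).codRestrict (Rg A) (fun x => cj_mem (hn h.1 h.2) x.2))
    (((cjA h.1⁻¹).comp (Rg A).val).codRestrict (Rg A)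
      (fun x => cj_mem (hn h.1⁻¹ (H.inv_mem h.2)) x.2))
    (by
      ext x : 2
      show cj h.1 (cj h.1⁻¹ x.1) = x.1
      rw [cj_cj, mul_inv_cancel, cj_one'])
    (by
      ext x : 2
      show cj h.1⁻¹ (cj h.1 x.1) = x.1
      rw [cj_cj, inv_mul_cancel, cj_one'])
  map_one' := by
    ext x : 2
    show cj 1 x.1 = x.1
    exact cj_one' _
  map_mul' a b := by
    ext x : 2
    show cj (a.1 * b.1) x.1 = cj a.1 (cj b.1 x.1)
    rw [cj_cj]

theorem Th_apply {H A : Subgroup (U ≃ₗ[ZMod p] U)} (hn : ∀ h ∈ H, ∀ a ∈ A, h * a * h⁻¹ ∈ A)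
    (h : H) (x : Rg A) : ((Th hn h x : Rg A) : Module.End (ZMod p) U) = cj h.1 x.1 := rfl

/-- the stabilizer of `e` -/
def Ms (H : Subgroup (U ≃ₗ[ZMod p] U)) (e : Module.End (ZMod p) U) :
    Subgroup (U ≃ₗ[ZMod p] U) where
  carrier := {h | h ∈ H ∧ cj h e = e}
  one_mem' := ⟨H.one_mem, cj_one' e⟩
  mul_mem' := by
    rintro a b ⟨ha, ha'⟩ ⟨hb, hb'⟩
    exact ⟨H.mul_mem ha hb, by rw [← cj_cj, hb', ha']⟩
  inv_mem' := by
    rintro a ⟨ha, ha'⟩
    refine ⟨H.inv_mem ha, ?_⟩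
    calc cj a⁻¹ e = cj a⁻¹ (cj a e) := by rw [ha']
      _ = e := by rw [cj_cj, inv_mul_cancel, cj_one']

end Cj

open scoped IsMulCommutative in
theorem twa : TwaStmt.{u} := by
  intro p hp U _ _ _ _ H A q e hAH hn hcomm hcent hdec
  have hfinEnd : Finite (Module.End (ZMod p) U) :=
    Finite.of_injective (fun f : Module.End (ZMod p) U => (f : U → U)) DFunLike.coe_injective
  have hfinEq : Finite (U ≃ₗ[ZMod p] U) :=
    Finite.of_injective (fun f : U ≃ₗ[ZMod p] U => (f : U → U)) DFunLike.coe_injective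
  have hIMC : IsMulCommutative (Rg A) := Algebra.isMulCommutative_adjoin (ZMod p) (rg_comm hcomm)
  have hfinR : Finite (Rg A) := inferInstance
  let e0 : Rg A := ⟨e 0, hdec.mem 0⟩
  let e1 : Rg A := ⟨e 1, hdec.mem 1⟩
  have hsum : e0 + e1 = 1 := by
    apply Subtype.ext
    have := hdec.sum
    rw [Fin.sum_univ_two] at this
    exact this
  have hid0 : e0 * e0 = e0 := Subtype.ext (hdec.idem 0)
  have hne0 : e0 ≠ 0 := fun h => hdec.ne 0 (congrArg Subtype.val h)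
  have hne1 : e1 ≠ 0 := fun h => hdec.ne 1 (congrArg Subtype.val h)
  have hf0 : ∀ x : Rg A, x * e0 ≠ 0 → ∃ y, x * y * e0 = e0 := by
    intro x hx
    obtain ⟨y, hy, hxy⟩ := hdec.fld 0 x.1 x.2 (fun h => hx (Subtype.ext h))
    exact ⟨⟨y, hy⟩, Subtype.ext hxy⟩
  have hf1 : ∀ x : Rg A, x * e1 ≠ 0 → ∃ y, x * y * e1 = e1 := by
    intro x hx
    obtain ⟨y, hy, hxy⟩ := hdec.fld 1 x.1 x.2 (fun h => hx (Subtype.ext h))
    exact ⟨⟨y, hy⟩, Subtype.ext hxy⟩
  have hm0 : (Ann e0).IsMaximal := ann_max hne0 hf0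
  have hm1 : (Ann e1).IsMaximal := ann_max hne1 hf1
  obtain ⟨τ, hτH, hτ⟩ := hdec.trans 0 1
  have hes : e 0 + e 1 = 1 := by
    have := hdec.sum
    rwa [Fin.sum_univ_two] at this
  have he1 : e 1 = 1 - e 0 := by rw [← hes, add_sub_cancel_left]
  have he0 : e 0 = 1 - e 1 := by rw [← hes, add_sub_cancel_right]
  have hτ' : cj τ (e 1) = e 0 := by
    rw [he1, cj_sub, cj_map_one, hτ, ← he0]
  have hne01 : e 0 ≠ e 1 := by
    intro h
    apply hdec.ne 0
    have h1 := hdec.orth 0 1 (by decide)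
    rw [← h, hdec.idem 0] at h1
    exact h1
  have hfr : Module.finrank (ZMod p) (Rg A ⧸ Ann e1) = Module.finrank (ZMod p) (Rg A ⧸ Ann e0) :=
    finrank_eq (F := ZMod p) (Th hn ⟨τ, hτH⟩) (Subtype.ext hτ)
  set a := Module.finrank (ZMod p) (Rg A ⧸ Ann e0) with ha
  obtain ⟨-, -, hapos, hcardK, -⟩ := quot_facts (F := ZMod p) (Ann e0)
  rw [Nat.card_zmod, ← ha] at hcardK
  rw [← ha] at hapos
  -- b
  obtain ⟨b, hb, hbc⟩ := card_range_pow (F := ZMod p) (Rg A).val (e := e0) hid0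
    (show (e 0 : Module.End (ZMod p) U) ≠ 0 from hdec.ne 0)
  have hq : q = p ^ (a * b) := by
    rw [← hdec.card 0]
    have h1 : Nat.card (LinearMap.range ((Rg A).val e0)) = Nat.card (LinearMap.range (e 0)) := rfl
    rw [← h1, hbc, hcardK, pow_mul]
  -- M
  let M := Ms H (e 0)
  have hMH : M ≤ H := fun h hh => hh.1
  have hfix : ∀ c ∈ A, ∀ x ∈ Rg A, cj c x = x := by
    intro c hc x hx
    have h1 : (⟨(c : Module.End (ZMod p) U), coe_mem hc⟩ : Rg A) * ⟨x, hx⟩ =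
        ⟨x, hx⟩ * ⟨(c : Module.End (ZMod p) U), coe_mem hc⟩ := mul_comm _ _
    have h2 : (c : Module.End (ZMod p) U) * x = x * (c : Module.End (ZMod p) U) :=
      congrArg Subtype.val h1
    unfold cj
    rw [h2, mul_assoc, coe_mul_inv, mul_one]
  have hAM : A ≤ M := fun c hc => ⟨hAH hc, hfix c hc _ (hdec.mem 0)⟩
  let ΘM : M →* (Rg A ≃ₐ[ZMod p] Rg A) := (Th hn).comp (Subgroup.inclusion hMH)
  have hΘM : ∀ (m : M) (x : Rg A), ((ΘM m x : Rg A) : Module.End (ZMod p) U) = cj m.1 x.1 :=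
    fun m x => rfl
  have hker : ∀ m : M, m ∈ ΘM.ker ↔ m.1 ∈ A := by
    intro m
    rw [MonoidHom.mem_ker]
    constructor
    · intro hm
      refine hcent m.1 (hMH m.2) ?_
      intro c hc
      have h1 : ΘM m ⟨(c : Module.End (ZMod p) U), coe_mem hc⟩ =
          ⟨(c : Module.End (ZMod p) U), coe_mem hc⟩ := by rw [hm]; rfl
      have h2 : cj m.1 (c : Module.End (ZMod p) U) = c := congrArg Subtype.val h1
      rw [cj_coe] at h2
      have h3 : m.1 * c * m.1⁻¹ = c := by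
        ext x
        exact LinearMap.congr_fun h2 x
      rw [mul_inv_eq_iff_eq_mul] at h3
      exact h3
    · intro hm
      ext x : 2
      show cj m.1 x.1 = x.1
      exact hfix _ hm _ x.2
  obtain ⟨f, hf, hfa, hfM, hcm, hlast⟩ := absMain (F := ZMod p) hsum hfr ΘM
    (fun m => Subtype.ext m.2.2)
  rw [← ha] at hfa hlast
  have hcardker : Nat.card ΘM.ker = Nat.card A := by
    refine Nat.card_congr
      { toFun := fun m => ⟨m.1.1, (hker m.1).1 m.2⟩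
        invFun := fun c => ⟨⟨c.1, hAM c.2⟩, (hker _).2 c.2⟩
        left_inv := fun m => rfl
        right_inv := fun c => rfl }
  -- units
  let ψ : A →* Rg A :=
    { toFun := fun c => ⟨(c.1 : Module.End (ZMod p) U), coe_mem c.2⟩
      map_one' := rfl
      map_mul' := fun _ _ => rfl }
  have hψ : Function.Injective ψ := by
    intro c d hcd
    apply Subtype.ext
    have h1 : ((c.1 : U ≃ₗ[ZMod p] U) : Module.End (ZMod p) U) = (d.1 : U ≃ₗ[ZMod p] U) :=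
      congrArg Subtype.val hcd
    ext x
    exact LinearMap.congr_fun h1 x
  have hAdvd : Nat.card A ∣ (p ^ a - 1) ^ 2 := by
    have := card_units_dvd (F := ZMod p) hsum hfr ψ hψ
    rwa [Nat.card_zmod] at this
  have hpa : 2 ≤ p ^ a := by
    calc 2 ≤ p := hp.out.two_le
      _ = p ^ 1 := (pow_one p).symm
      _ ≤ p ^ a := Nat.pow_le_pow_right hp.out.pos hapos
  have hppos : 0 < (p ^ a - 1) ^ 2 := by
    have : 0 < p ^ a - 1 := by omega
    positivity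
  -- index 2
  have hindex : (M.subgroupOf H).index = 2 := by
    rw [Subgroup.index_eq_two_iff]
    refine ⟨⟨τ, hτH⟩, ?_⟩
    rintro ⟨h, hh⟩
    have hb0 : (⟨h, hh⟩ : H) ∈ M.subgroupOf H ↔ cj h (e 0) = e 0 := by
      rw [Subgroup.mem_subgroupOf]
      exact ⟨fun hx => hx.2, fun hx => ⟨hh, hx⟩⟩
    have hb1 : (⟨h, hh⟩ : H) * ⟨τ, hτH⟩ ∈ M.subgroupOf H ↔ cj h (e 1) = e 0 := by
      rw [Subgroup.mem_subgroupOf]
      constructor
      · intro hx
        have h2 : cj (h * τ) (e 0) = e 0 := hx.2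
        rwa [← cj_cj, hτ] at h2
      · intro hx
        refine ⟨H.mul_mem hh hτH, ?_⟩
        show cj (h * τ) (e 0) = e 0
        rw [← cj_cj, hτ, hx]
    rw [hb0, hb1]
    have hj : cj h (e 1) = 1 - cj h (e 0) := by
      rw [he1, cj_sub, cj_map_one]
    obtain ⟨j, hj'⟩ := hdec.perm h hh 0
    fin_cases j
    · have hj0 : cj h (e 0) = e 0 := hj'
      right
      refine ⟨hj0, ?_⟩
      rw [hj, hj0, ← he1]
      exact fun h => hne01 h.symm
    · have hj0 : cj h (e 0) = e 1 := hj'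
      left
      refine ⟨?_, ?_⟩
      · rw [hj, hj0, ← he0]
      · rw [hj0]
        exact fun h => hne01 h.symm
  have hcardH : Nat.card H = 2 * Nat.card M := by
    have h1 := Subgroup.card_mul_index (M.subgroupOf H)
    rw [hindex, Nat.card_congr (Subgroup.subgroupOfEquivOfLe hMH).toEquiv] at h1
    rw [← h1, mul_comm]
  refine ⟨a, b, f, M, hapos, hb, hf, hq, hAM, hMH, hcardH, ?_, hfa, Nat.le_of_dvd hppos hAdvd,
    hAdvd, ?_, ?_⟩
  · rw [hfM, hcardker]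
  · intro x hx y hy
    exact (hker _).1 (hcm ⟨x, hx⟩ ⟨y, hy⟩)
  · intro ha2 hfa2
    obtain ⟨m, hm1, x, hx⟩ := hlast ha2 hfa2
    refine ⟨τ, hτH, m.1, hMH m.2, ?_⟩
    intro hc
    apply hx
    apply Subtype.ext
    show (cj m.1 x.1 - x.1) * e 0 = 0
    have hτn : ∀ a ∈ A, τ⁻¹ * a * τ⁻¹⁻¹ ∈ A := hn τ⁻¹ (H.inv_mem hτH)
    have hyR : cj τ⁻¹ x.1 ∈ Rg A := cj_mem hτn x.2
    have h1 : (cj m.1 (cj τ⁻¹ x.1) - cj τ⁻¹ x.1) * e 1 = 0 :=
      congrArg Subtype.val (hm1 ⟨cj τ⁻¹ x.1, hyR⟩)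
    have h2 := congrArg (cj τ) h1
    rw [cj_zero, cj_mul, hτ', cj_sub, cj_cj, cj_cj, cj_cj, mul_inv_cancel, cj_one'] at h2
    have h3 : cj (τ * m.1 * τ⁻¹) x.1 = cj m.1 x.1 := by
      have h4 : τ * m.1 * τ⁻¹ = (τ * m.1 * τ⁻¹ * m.1⁻¹) * m.1 := by group
      rw [h4, ← cj_cj]
      exact hfix _ hc _ (cj_mem (hn m.1 (hMH m.2)) x.2)
    rwa [h3] at h2

end Pool.Agent.Helper12.AG
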